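import Pool.Agent.H83.VU.Targets

/-!
# TAY: Taylor expansion of `n ^ (i u)`
-/

set_option autoImplicit false

open Finset Pool.Agent.H83.VU

namespace Pool.Agent.H16.VU

theorem norm_exp_sub_exp (a b : ℝ) :
    ‖Complex.exp ((a : ℝ) * Complex.I) - Complex.exp ((b : ℝ) * Complex.I)‖ ≤ |a - b| := by
  have h1 : Complex.exp ((a : ℝ) * Complex.I) - Complex.exp ((b : ℝ) * Complex.I) =
      Complex.exp ((b : ℝ) * Complex.I) * (Complex.exp (Complex.I * ((a - b : ℝ) : ℂ)) - 1) := by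
    rw [mul_sub, ← Complex.exp_add, mul_one]
    congr 2
    push_cast
    ring
  rw [h1, norm_mul, Complex.norm_exp_ofReal_mul_I, one_mul]
  have h2 := Real.norm_exp_I_mul_ofReal_sub_one_le (x := a - b)
  rwa [Real.norm_eq_abs] at h2

theorem log_taylor (k : ℕ) (t : ℝ) (h0 : 0 ≤ t) (h1 : t ≤ 1 / 2) :
    |Real.log (1 + t) - ∑ i : Fin k, (-1) ^ (i : ℕ) * t ^ ((i : ℕ) + 1) / ((i : ℝ) + 1)| ≤
      2 * t ^ (k + 1) := by
  have habs : |(-t)| = t := by rw [abs_neg, abs_of_nonneg h0]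
  have h2 := Real.abs_log_sub_add_sum_range_le (x := -t) (by rw [habs]; linarith) k
  rw [habs, sub_neg_eq_add] at h2
  have h3 : ∑ i ∈ Finset.range k, (-t) ^ (i + 1) / ((i : ℝ) + 1) =
      - ∑ i : Fin k, (-1) ^ (i : ℕ) * t ^ ((i : ℕ) + 1) / ((i : ℝ) + 1) := by
    rw [Finset.sum_range (fun i => (-t) ^ (i + 1) / ((i : ℝ) + 1)), ← Finset.sum_neg_distrib]
    apply Finset.sum_congr rfl
    intro i _
    rw [neg_pow t ((i : ℕ) + 1), pow_succ (-1 : ℝ) (i : ℕ)]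
    ring
  rw [h3] at h2
  have h4 : t ^ (k + 1) / (1 - t) ≤ 2 * t ^ (k + 1) := by
    rw [div_le_iff₀ (by linarith)]
    have h5 : 0 ≤ t ^ (k + 1) := by positivity
    nlinarith
  calc _ = |-(∑ i : Fin k, (-1) ^ (i : ℕ) * t ^ ((i : ℕ) + 1) / ((i : ℝ) + 1)) +
        Real.log (1 + t)| := by
        congr 1
        ring
    _ ≤ _ := h2.trans h4

theorem dt_tc (k n : ℕ) (hn : 1 ≤ n) (u : ℝ) (m : ℕ) :
    2 * Real.pi * dt (tc k u n) (pw k (m : ℤ)) =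
      u * ∑ i : Fin k, (-1) ^ (i : ℕ) * ((m : ℝ) / n) ^ ((i : ℕ) + 1) / ((i : ℝ) + 1) := by
  have hn' : (n : ℝ) ≠ 0 := by
    have : (1 : ℝ) ≤ n := by exact_mod_cast hn
    linarith
  have hpi := Real.pi_ne_zero
  unfold dt tc pw
  rw [Finset.mul_sum, Finset.mul_sum]
  apply Finset.sum_congr rfl
  intro i _
  have hi : ((i : ℕ) : ℝ) + 1 ≠ 0 := by positivity
  push_cast
  rw [div_pow]
  field_simp

theorem term (k n Z x y : ℕ) (u : ℝ) (hn : 1 ≤ n) (hZ : 2 * Z ^ 2 ≤ n) (hx : x ≤ Z) (hy : y ≤ Z) :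
    ‖ni u (n + x * y) - ni u n * e (dt (tc k u n) (pw k ((x : ℤ) * (y : ℤ))))‖ ≤
      2 * |u| * ((Z : ℝ) ^ 2 / n) ^ (k + 1) := by
  have hn' : (1 : ℝ) ≤ n := by exact_mod_cast hn
  have hn0 : (0 : ℝ) < n := by linarith
  obtain ⟨m, hm⟩ : ∃ m : ℕ, m = x * y := ⟨_, rfl⟩
  have hmZ : m ≤ Z ^ 2 := by
    rw [hm, pow_two]
    exact Nat.mul_le_mul hx hy
  have hmZ' : (m : ℝ) ≤ (Z : ℝ) ^ 2 := by exact_mod_cast hmZ
  have hZ' : 2 * (Z : ℝ) ^ 2 ≤ n := by exact_mod_cast hZ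
  obtain ⟨t, ht⟩ : ∃ t : ℝ, t = (m : ℝ) / n := ⟨_, rfl⟩
  have ht0 : 0 ≤ t := by rw [ht]; positivity
  have ht1 : t ≤ 1 / 2 := by
    rw [ht, div_le_iff₀ hn0]
    linarith
  have htZ : t ≤ (Z : ℝ) ^ 2 / n := by
    rw [ht]
    exact div_le_div_of_nonneg_right hmZ' hn0.le
  have hcast : ((x : ℤ) * (y : ℤ)) = ((m : ℕ) : ℤ) := by
    rw [hm]
    push_cast
    ring
  rw [hcast, ← hm]
  have h1 : ni u (n + m) = ni u n * Complex.exp ((u * Real.log (1 + t) : ℝ) * Complex.I) := by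
    unfold ni
    rw [← Complex.exp_add]
    have h2 : Real.log ((n + m : ℕ) : ℝ) = Real.log n + Real.log (1 + t) := by
      rw [← Real.log_mul hn0.ne' (by linarith)]
      congr 1
      rw [ht]
      push_cast
      field_simp
    rw [h2]
    congr 1
    push_cast
    ring
  rw [h1, ← mul_sub, norm_mul, norm_ni, one_mul]
  unfold e
  refine (norm_exp_sub_exp _ _).trans ?_
  rw [dt_tc k n hn u m, ← ht, ← mul_sub, abs_mul]
  have h3 := log_taylor k t ht0 ht1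
  have h4 : t ^ (k + 1) ≤ ((Z : ℝ) ^ 2 / n) ^ (k + 1) := pow_le_pow_left₀ ht0 htZ _
  calc |u| * _ ≤ |u| * (2 * t ^ (k + 1)) := mul_le_mul_of_nonneg_left h3 (abs_nonneg u)
    _ ≤ |u| * (2 * ((Z : ℝ) ^ 2 / n) ^ (k + 1)) := by
        apply mul_le_mul_of_nonneg_left _ (abs_nonneg u)
        linarith
    _ = _ := by ring

theorem sum_cast (Z : ℕ) (f : ℤ → ℂ) :
    ∑ x ∈ Icc 1 (Z : ℤ), f x = ∑ x ∈ Icc 1 Z, f (x : ℤ) := by
  symm
  apply Finset.sum_nbij (fun x : ℕ => (x : ℤ))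
  · intro a ha
    rw [Finset.mem_Icc] at ha ⊢
    constructor
    · exact_mod_cast ha.1
    · exact_mod_cast ha.2
  · intro a _ b _ hab
    have hab' : (a : ℤ) = (b : ℤ) := hab
    exact Int.ofNat.inj hab'
  · intro b hb
    rw [Finset.mem_coe, Finset.mem_Icc] at hb
    refine ⟨b.toNat, ?_, ?_⟩
    · rw [Finset.mem_coe, Finset.mem_Icc]
      omega
    · show ((b.toNat : ℕ) : ℤ) = b
      omega
  · intro a _
    rfl

theorem BB_cast (k Z : ℕ) (a : Fin k → ℝ) :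
    BB a Z = ∑ x ∈ Icc 1 Z, ∑ y ∈ Icc 1 Z, e (dt a (pw k ((x : ℤ) * (y : ℤ)))) := by
  unfold BB
  rw [sum_cast Z (fun x => ∑ y ∈ Icc 1 (Z : ℤ), e (dt a (pw k (x * y))))]
  apply Finset.sum_congr rfl
  intro x _
  exact sum_cast Z (fun y => e (dt a (pw k ((x : ℤ) * y))))

theorem pf_TAY : T_TAY := by
  intro k n Z u hn hZ
  have h1 : ∑ x ∈ Icc 1 Z, ∑ y ∈ Icc 1 Z, ni u (n + x * y) =
      ni u n * BB (tc k u n) Z + ∑ x ∈ Icc 1 Z, ∑ y ∈ Icc 1 Z,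
        (ni u (n + x * y) - ni u n * e (dt (tc k u n) (pw k ((x : ℤ) * (y : ℤ))))) := by
    rw [BB_cast, Finset.mul_sum, ← Finset.sum_add_distrib]
    apply Finset.sum_congr rfl
    intro x _
    rw [Finset.mul_sum, ← Finset.sum_add_distrib]
    apply Finset.sum_congr rfl
    intro y _
    ring
  rw [h1]
  refine (norm_add_le _ _).trans ?_
  rw [norm_mul, norm_ni, one_mul]
  apply add_le_add le_rfl
  have h2 : ∀ x ∈ Icc 1 Z, ‖∑ y ∈ Icc 1 Z,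
      (ni u (n + x * y) - ni u n * e (dt (tc k u n) (pw k ((x : ℤ) * (y : ℤ)))))‖ ≤
      (Z : ℝ) * (2 * |u| * ((Z : ℝ) ^ 2 / n) ^ (k + 1)) := by
    intro x hx
    refine (norm_sum_le_of_le _ (fun y hy => term k n Z x y u hn hZ (Finset.mem_Icc.mp hx).2
      (Finset.mem_Icc.mp hy).2)).trans ?_
    rw [Finset.sum_const, Nat.card_Icc, nsmul_eq_mul]
    simp
  refine (norm_sum_le_of_le _ h2).trans ?_
  rw [Finset.sum_const, Nat.card_Icc, nsmul_eq_mul]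
  simp only [Nat.add_sub_cancel]
  apply le_of_eq
  ring

end Pool.Agent.H16.VU
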